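import Mathlib

/-!
# The free set-theoretic solution of the Yang-Baxter equation is never injective

For every non-empty set `X` the free non-degenerate solution on `X` exists, and the canonical
map from it to its structure group is not injective.
-/

namespace Pool.Agent.Results.MP_f0defb_al.FreeSolutionNotInjective

universe u

section Defs

variable {Y Z : Type u}

/-- `r × id` acting on triples. -/
def r12 (r : Y × Y → Y × Y) (t : Y × Y × Y) : Y × Y × Y :=
  ((r (t.1, t.2.1)).1, (r (t.1, t.2.1)).2, t.2.2)

/-- `id × r` acting on triples. -/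
def r23 (r : Y × Y → Y × Y) (t : Y × Y × Y) : Y × Y × Y :=
  (t.1, r (t.2.1, t.2.2))

/-- `(Y, r)` is a non-degenerate set-theoretic solution of the Yang-Baxter equation: writing
`r (x, y) = (lam_x y, rho_y x)`, the braid relation holds and all `lam_x`, `rho_y` are
bijections. -/
structure IsSolution (r : Y × Y → Y × Y) : Prop where
  braid : ∀ t, r12 r (r23 r (r12 r t)) = r23 r (r12 r (r23 r t))
  lam_bij : ∀ x, Function.Bijective fun y => (r (x, y)).1
  rho_bij : ∀ y, Function.Bijective fun x => (r (x, y)).2

/-- `f` is a morphism of solutions `(Y, r) → (Z, s)`: `(f × f) ∘ r = s ∘ (f × f)`. -/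
def IsMorphism (r : Y × Y → Y × Y) (s : Z × Z → Z × Z) (f : Y → Z) : Prop :=
  ∀ p, Prod.map f f (r p) = s (Prod.map f f p)

/-- `(Y, r)` with `i : X → Y` is the free solution on `X`: every map from `X` to a solution
extends uniquely along `i` to a morphism of solutions. -/
def IsFreeSolution {X : Type u} (r : Y × Y → Y × Y) (i : X → Y) : Prop :=
  IsSolution r ∧ ∀ (Z : Type u) (s : Z × Z → Z × Z), IsSolution s → ∀ h : X → Z,
    ∃! f : Y → Z, IsMorphism r s f ∧ ∀ x, f (i x) = h x

/-- The defining relators `x y (lam_x y · rho_y x)⁻¹` of the structure group. -/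
def structureRels (r : Y × Y → Y × Y) : Set (FreeGroup Y) :=
  {w | ∃ x y : Y, w = FreeGroup.of x * FreeGroup.of y *
    (FreeGroup.of (r (x, y)).1 * FreeGroup.of (r (x, y)).2)⁻¹}

/-- The structure group `G(Y, r)`: generators `Y`, relations `x ∘ y = lam_x y ∘ rho_y x`. -/
abbrev StructureGroup (r : Y × Y → Y × Y) : Type u := PresentedGroup (structureRels r)

/-- The canonical map `g : Y → G(Y, r)`. -/
def canonicalMap (r : Y × Y → Y × Y) : Y → StructureGroup r := PresentedGroup.of

end Defs

section Existence

/-- Terms in the operations `lam`, `rho` and their inverses. -/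
inductive Term (X : Type u) : Type u
  | var : X → Term X
  | lam : Term X → Term X → Term X
  | rho : Term X → Term X → Term X
  | lamInv : Term X → Term X → Term X
  | rhoInv : Term X → Term X → Term X

variable {X Z : Type u}

/-- The operation `lam_x`, as a permutation. -/
noncomputable def lamE {s : Z × Z → Z × Z} (hs : IsSolution s) (x : Z) : Z ≃ Z :=
  Equiv.ofBijective _ (hs.lam_bij x)

/-- The operation `rho_y`, as a permutation. -/
noncomputable def rhoE {s : Z × Z → Z × Z} (hs : IsSolution s) (y : Z) : Z ≃ Z :=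
  Equiv.ofBijective _ (hs.rho_bij y)

theorem lamE_apply {s : Z × Z → Z × Z} (hs : IsSolution s) (x y : Z) :
    lamE hs x y = (s (x, y)).1 := rfl

theorem rhoE_apply {s : Z × Z → Z × Z} (hs : IsSolution s) (x y : Z) :
    rhoE hs y x = (s (x, y)).2 := rfl

/-- Evaluation of terms in a solution. -/
noncomputable def eval {s : Z × Z → Z × Z} (hs : IsSolution s) (h : X → Z) : Term X → Z
  | .var x => h x
  | .lam a b => lamE hs (eval hs h a) (eval hs h b)
  | .rho a b => rhoE hs (eval hs h a) (eval hs h b)
  | .lamInv a b => (lamE hs (eval hs h a)).symm (eval hs h b)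
  | .rhoInv a b => (rhoE hs (eval hs h a)).symm (eval hs h b)

/-- Two terms are identified when they agree in all solutions. -/
def termSetoid (X : Type u) : Setoid (Term X) where
  r a b := ∀ (Z : Type u) (s : Z × Z → Z × Z) (hs : IsSolution s) (h : X → Z),
    eval hs h a = eval hs h b
  iseqv := ⟨fun _ _ _ _ _ => rfl, fun H Z s hs h => (H Z s hs h).symm,
    fun H K Z s hs h => (H Z s hs h).trans (K Z s hs h)⟩

/-- The underlying set of the free solution. -/
def FSol (X : Type u) : Type u := Quotient (termSetoid X)

namespace FSol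

/-- Evaluation on the quotient. -/
noncomputable def ev {s : Z × Z → Z × Z} (hs : IsSolution s) (h : X → Z) : FSol X → Z :=
  Quotient.lift (eval hs h) (fun _ _ H => H Z s hs h)

/-- The class of a term. -/
def mk (a : Term X) : FSol X := Quotient.mk (termSetoid X) a

theorem ev_mk {s : Z × Z → Z × Z} (hs : IsSolution s) (h : X → Z) (a : Term X) :
    ev hs h (mk a) = eval hs h a := rfl

theorem ext {a b : FSol X} (H : ∀ (Z : Type u) (s : Z × Z → Z × Z) (hs : IsSolution s)
    (h : X → Z), ev hs h a = ev hs h b) : a = b := by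
  induction a using Quotient.inductionOn
  induction b using Quotient.inductionOn
  exact Quotient.sound H

/-- A binary operation on the quotient. -/
def lift2 (op : Term X → Term X → Term X)
    (hop : ∀ a a' b b' : Term X, (termSetoid X).r a a' → (termSetoid X).r b b' →
      (termSetoid X).r (op a b) (op a' b')) (a b : FSol X) : FSol X :=
  Quotient.map₂ op (fun _ _ h _ _ h' => hop _ _ _ _ h h') a b

/-- `lam` on the quotient. -/
def lam (a b : FSol X) : FSol X :=
  lift2 Term.lam (fun a a' b b' h h' Z s hs k => by simp only [eval, h Z s hs k, h' Z s hs k]) a b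

/-- `rho` on the quotient. -/
def rho (a b : FSol X) : FSol X :=
  lift2 Term.rho (fun a a' b b' h h' Z s hs k => by simp only [eval, h Z s hs k, h' Z s hs k]) a b

/-- `lam` inverse on the quotient. -/
def lamInv (a b : FSol X) : FSol X :=
  lift2 Term.lamInv
    (fun a a' b b' h h' Z s hs k => by simp only [eval, h Z s hs k, h' Z s hs k]) a b

/-- `rho` inverse on the quotient. -/
def rhoInv (a b : FSol X) : FSol X :=
  lift2 Term.rhoInv
    (fun a a' b b' h h' Z s hs k => by simp only [eval, h Z s hs k, h' Z s hs k]) a b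

section

variable {s : Z × Z → Z × Z} (hs : IsSolution s) (h : X → Z)

theorem ev_lam (a b : FSol X) : ev hs h (lam a b) = (s (ev hs h a, ev hs h b)).1 := by
  induction a using Quotient.inductionOn
  induction b using Quotient.inductionOn
  rfl

theorem ev_rho (a b : FSol X) : ev hs h (rho a b) = (s (ev hs h b, ev hs h a)).2 := by
  induction a using Quotient.inductionOn
  induction b using Quotient.inductionOn
  rfl

theorem ev_lamInv (a b : FSol X) :
    ev hs h (lamInv a b) = (lamE hs (ev hs h a)).symm (ev hs h b) := by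
  induction a using Quotient.inductionOn
  induction b using Quotient.inductionOn
  rfl

theorem ev_rhoInv (a b : FSol X) :
    ev hs h (rhoInv a b) = (rhoE hs (ev hs h a)).symm (ev hs h b) := by
  induction a using Quotient.inductionOn
  induction b using Quotient.inductionOn
  rfl

end

/-- The map `r` of the free solution. -/
def r (p : FSol X × FSol X) : FSol X × FSol X := (lam p.1 p.2, rho p.2 p.1)

theorem ev_r {s : Z × Z → Z × Z} (hs : IsSolution s) (h : X → Z) (p : FSol X × FSol X) :
    Prod.map (ev hs h) (ev hs h) (r p) = s (Prod.map (ev hs h) (ev hs h) p) := by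
  obtain ⟨a, b⟩ := p
  ext
  · simp [r, ev_lam]
  · simp [r, ev_rho]

theorem ev_r12 {s : Z × Z → Z × Z} (hs : IsSolution s) (h : X → Z)
    (t : FSol X × FSol X × FSol X) :
    Prod.map (ev hs h) (Prod.map (ev hs h) (ev hs h)) (r12 r t) =
      r12 s (Prod.map (ev hs h) (Prod.map (ev hs h) (ev hs h)) t) := by
  obtain ⟨a, b, c⟩ := t
  have := ev_r hs h (a, b)
  simp only [Prod.map] at this
  simp only [r12, Prod.map, ← this]

theorem ev_r23 {s : Z × Z → Z × Z} (hs : IsSolution s) (h : X → Z)
    (t : FSol X × FSol X × FSol X) :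
    Prod.map (ev hs h) (Prod.map (ev hs h) (ev hs h)) (r23 r t) =
      r23 s (Prod.map (ev hs h) (Prod.map (ev hs h) (ev hs h)) t) := by
  obtain ⟨a, b, c⟩ := t
  have := ev_r hs h (b, c)
  simp only [Prod.map] at this
  simp only [r23, Prod.map, ← this]

theorem isSolution : IsSolution (r (X := X)) where
  braid t := by
    have key : ∀ p q : FSol X × FSol X × FSol X,
        (∀ (Z : Type u) (s : Z × Z → Z × Z) (hs : IsSolution s) (h : X → Z),
          Prod.map (ev hs h) (Prod.map (ev hs h) (ev hs h)) p =
            Prod.map (ev hs h) (Prod.map (ev hs h) (ev hs h)) q) → p = q := by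
      rintro ⟨a, b, c⟩ ⟨a', b', c'⟩ H
      have h1 : a = a' := ext fun Z s hs h => congrArg Prod.fst (H Z s hs h)
      have h2 : b = b' := ext fun Z s hs h => congrArg (fun x => x.2.1) (H Z s hs h)
      have h3 : c = c' := ext fun Z s hs h => congrArg (fun x => x.2.2) (H Z s hs h)
      rw [h1, h2, h3]
    apply key
    intro Z s hs h
    rw [ev_r12, ev_r23, ev_r12, ev_r23, ev_r12, ev_r23]
    exact hs.braid _
  lam_bij x := by
    constructor
    · intro a b hab
      have e : ∀ c : FSol X, lamInv x (lam x c) = c := fun c => ext fun Z s hs h => by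
        rw [ev_lamInv, ev_lam]
        exact (lamE hs _).symm_apply_apply _
      have : lam x a = lam x b := hab
      rw [← e a, this, e b]
    · intro b
      refine ⟨lamInv x b, ?_⟩
      change lam x (lamInv x b) = b
      apply ext
      intro Z s hs h
      rw [ev_lam, ev_lamInv]
      exact (lamE hs _).apply_symm_apply _
  rho_bij y := by
    constructor
    · intro a b hab
      have e : ∀ c : FSol X, rhoInv y (rho y c) = c := fun c => ext fun Z s hs h => by
        rw [ev_rhoInv, ev_rho]
        exact (rhoE hs _).symm_apply_apply _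
      have : rho y a = rho y b := hab
      rw [← e a, this, e b]
    · intro b
      refine ⟨rhoInv y b, ?_⟩
      change rho y (rhoInv y b) = b
      apply ext
      intro Z s hs h
      rw [ev_rho, ev_rhoInv]
      exact (rhoE hs _).apply_symm_apply _

theorem isFree : IsFreeSolution (X := X) (r (X := X)) (fun x => mk (Term.var x)) := by
  refine ⟨isSolution, ?_⟩
  intro Z s hs h
  refine ⟨ev hs h, ⟨ev_r hs h, fun x => rfl⟩, ?_⟩
  rintro f ⟨hf, hfi⟩
  funext a
  induction a using Quotient.inductionOn with
  | _ t =>
  change f (mk t) = eval hs h t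
  induction t with
  | var x => exact hfi x
  | lam a b iha ihb =>
    have := congrArg Prod.fst (hf (mk a, mk b))
    change f (lam (mk a) (mk b)) = _ at this
    change f (lam (mk a) (mk b)) = _
    rw [this]
    simp only [Prod.map, iha, ihb]
    rfl
  | rho a b iha ihb =>
    have := congrArg Prod.snd (hf (mk b, mk a))
    change f (rho (mk a) (mk b)) = _ at this
    change f (rho (mk a) (mk b)) = _
    rw [this]
    simp only [Prod.map, iha, ihb]
    rfl
  | lamInv a b iha ihb =>
    have := congrArg Prod.fst (hf (mk a, lamInv (mk a) (mk b)))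
    change f (lam (mk a) (lamInv (mk a) (mk b))) = (s (f (mk a), f (lamInv (mk a) (mk b)))).1
      at this
    have e : lam (mk a) (lamInv (mk a) (mk b)) = mk b := ext fun Z s hs h => by
      rw [ev_lam, ev_lamInv]
      exact (lamE hs _).apply_symm_apply _
    rw [e, iha, ihb] at this
    change f (lamInv (mk a) (mk b)) = (lamE hs (eval hs h a)).symm (eval hs h b)
    rw [Equiv.eq_symm_apply, lamE_apply]
    exact this.symm
  | rhoInv a b iha ihb =>
    have := congrArg Prod.snd (hf (rhoInv (mk a) (mk b), mk a))
    change f (rho (mk a) (rhoInv (mk a) (mk b))) = (s (f (rhoInv (mk a) (mk b)), f (mk a))).2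
      at this
    have e : rho (mk a) (rhoInv (mk a) (mk b)) = mk b := ext fun Z s hs h => by
      rw [ev_rho, ev_rhoInv]
      exact (rhoE hs _).apply_symm_apply _
    rw [e, iha, ihb] at this
    change f (rhoInv (mk a) (mk b)) = (rhoE hs (eval hs h a)).symm (eval hs h b)
    rw [Equiv.eq_symm_apply, rhoE_apply]
    exact this.symm

end FSol

end Existence

/-- The two-element cyclic rack, as a solution: `r (x, y) = (y, not x)`. -/
def rackSol (p : ULift.{u} Bool × ULift.{u} Bool) : ULift.{u} Bool × ULift.{u} Bool :=
  (p.2, ⟨!p.1.down⟩)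

theorem rackSol_isSolution : IsSolution rackSol.{u} where
  braid t := by
    obtain ⟨⟨a⟩, ⟨b⟩, ⟨c⟩⟩ := t
    rfl
  lam_bij x := Function.bijective_id
  rho_bij y := by
    constructor
    · rintro ⟨a⟩ ⟨b⟩ h
      have h' : (!a) = (!b) := congrArg ULift.down h
      have : a = b := by
        cases a <;> cases b <;> simp_all
      rw [this]
    · rintro ⟨b⟩
      exact ⟨⟨!b⟩, by simp [rackSol]⟩

/-- For every non-empty set `X` the free solution on `X` exists, and the canonical map from any
free solution on `X` to its structure group is not injective. -/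
theorem result (X : Type u) [Nonempty X] :
    (∃ (Y : Type u) (r : Y × Y → Y × Y) (i : X → Y), IsFreeSolution r i) ∧
    ∀ (Y : Type u) (r : Y × Y → Y × Y) (i : X → Y), IsFreeSolution r i →
      ¬ Function.Injective (canonicalMap r) := by
  refine ⟨⟨FSol X, FSol.r, _, FSol.isFree⟩, ?_⟩
  intro Y r i hfree hinj
  obtain ⟨hr, huniv⟩ := hfree
  obtain ⟨x₀⟩ := ‹Nonempty X›
  obtain ⟨b, hb⟩ := (hr.lam_bij (i x₀)).2 (i x₀)
  -- `b = lam_a⁻¹ a`, so `r (a, b) = (a, c)`
  have hb' : (r (i x₀, b)).1 = i x₀ := hb
  have hg : canonicalMap r b = canonicalMap r (r (i x₀, b)).2 := by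
    have hrel : (PresentedGroup.mk (structureRels r)) (FreeGroup.of (i x₀) * FreeGroup.of b *
        (FreeGroup.of (r (i x₀, b)).1 * FreeGroup.of (r (i x₀, b)).2)⁻¹) = 1 :=
      PresentedGroup.mk_eq_one_iff.mpr (Subgroup.subset_normalClosure ⟨i x₀, b, rfl⟩)
    rw [hb', map_mul, map_inv, mul_inv_eq_one, map_mul, map_mul] at hrel
    exact mul_left_cancel hrel
  have hbc : b = (r (i x₀, b)).2 := hinj hg
  obtain ⟨f, ⟨hf, -⟩, -⟩ := huniv (ULift Bool) rackSol rackSol_isSolution (fun _ => ⟨true⟩)
  have h1 := hf (i x₀, b)
  have e1 : f (r (i x₀, b)).1 = f b := congrArg Prod.fst h1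
  have e2 : f (r (i x₀, b)).2 = ⟨!(f (i x₀)).down⟩ := congrArg Prod.snd h1
  rw [hb'] at e1
  rw [← hbc, e1] at e2
  have e3 : (f b).down = !(f b).down := congrArg ULift.down e2
  cases h : (f b).down <;> rw [h] at e3 <;> simp at e3

end Pool.Agent.Results.MP_f0defb_al.FreeSolutionNotInjective
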